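import Mathlib
import Pool.Agent.K4H75.SG.Reach

/-!
# MP_7523db_al

For every prime `p ≡ 3 (mod 4)` with `p ≥ 2 ^ 100` the soluble graph of the alternating group
`A_p` has diameter at least four.  In particular there are infinitely many finite insoluble
groups with trivial soluble radical whose soluble graph has diameter at least four.
-/

set_option autoImplicit false

namespace Pool.Agent.Results.MP_7523db_al.SolubleDiameterFour

open Equiv Pool.Agent.K4H75.SG

/-- The soluble radical: the subgroup generated by all soluble normal subgroups (for a finite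
group this is the largest soluble normal subgroup). -/
def solubleRadical (G : Type) [Group G] : Subgroup G :=
  sSup {N : Subgroup G | N.Normal ∧ Group.IsSolvable N}

/-- The soluble graph: the vertices are the elements outside the soluble radical, and two
distinct vertices are adjacent when they generate a soluble subgroup. -/
def solubleGraph (G : Type) [Group G] : SimpleGraph {g : G // g ∉ solubleRadical G} where
  Adj x y := x ≠ y ∧ Group.IsSolvable (Subgroup.closure ({x.1, y.1} : Set G))
  symm := ⟨by
    rintro x y ⟨h1, h2⟩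
    refine ⟨h1.symm, ?_⟩
    rw [Set.pair_comm]
    exact h2⟩
  loopless := ⟨fun x h => h.1 rfl⟩

theorem walk_le_three {G : Type} [Group G] {u v : {g : G // g ∉ solubleRadical G}}
    (w : (solubleGraph G).Walk u v) (h : w.length ≤ 3) :
    ∃ y z : {g : G // g ∉ solubleRadical G},
      SolPair u.1 y.1 ∧ SolPair y.1 z.1 ∧ SolPair z.1 v.1 := by
  cases w with
  | nil => exact ⟨u, u, solPair_self _, solPair_self _, solPair_self _⟩
  | cons h1 w =>
    cases w with
    | nil => exact ⟨v, v, h1.2, solPair_self _, solPair_self _⟩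
    | cons h2 w =>
      cases w with
      | nil => exact ⟨_, v, h1.2, h2.2, solPair_self _⟩
      | cons h3 w =>
        cases w with
        | nil => exact ⟨_, _, h1.2, h2.2, h3.2⟩
        | cons h4 w =>
          exfalso
          simp only [SimpleGraph.Walk.length_cons] at h
          omega

theorem main (p : ℕ) (hp : p.Prime) (hp4 : p % 4 = 3) (hpl : 2 ^ 100 ≤ p) :
    ¬ Group.IsSolvable (alternatingGroup (Fin p)) ∧
      solubleRadical (alternatingGroup (Fin p)) = ⊥ ∧
      (∃ x y, (solubleGraph (alternatingGroup (Fin p))).Reachable x y ∧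
        4 ≤ (solubleGraph (alternatingGroup (Fin p))).dist x y) ∧
      4 ≤ (solubleGraph (alternatingGroup (Fin p))).ediam := by
  have : Fact p.Prime := ⟨hp⟩
  have hp9 : 9 ≤ p := le_trans (by norm_num) hpl
  obtain ⟨σ, hσ, hg⟩ := exists_good hpl hp4
  have e : Fin p ≃ ZMod p := Fintype.equivOfCardEq (by rw [ZMod.card, Fintype.card_fin])
  let φ : Perm (Fin p) ≃* Perm (ZMod p) := e.permCongrHom
  have hφs : ∀ a, Perm.sign (φ a) = Perm.sign a := fun a => Perm.sign_permCongr e a
  let ψ : alternatingGroup (Fin p) →* Perm (ZMod p) :=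
    φ.toMonoidHom.comp (alternatingGroup (Fin p)).subtype
  have hψ : Function.Injective ψ := φ.injective.comp (Subgroup.subtype_injective _)
  have hψs : ∀ a, Perm.sign (ψ a) = 1 := by
    intro a
    show Perm.sign (φ a) = 1
    rw [hφs]
    exact Perm.mem_alternatingGroup.mp a.2
  have hψr : ∀ a, Perm.sign a = 1 → ∃ g, ψ g = a := by
    intro a ha
    refine ⟨⟨φ.symm a, ?_⟩, φ.apply_symm_apply a⟩
    rw [Perm.mem_alternatingGroup, ← hφs, φ.apply_symm_apply]
    exact ha
  have hψ1 : ∀ a, ψ a = 1 ↔ a = 1 := by
    intro a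
    rw [← map_one ψ]
    exact hψ.eq_iff
  have hno : ∀ y z : Perm (ZMod p), y ≠ 1 → z ≠ 1 → Perm.sign y = 1 → Perm.sign z = 1 →
      SolPair (tr p) y → SolPair y z → SolPair z (σ * tr p * σ⁻¹) → False :=
    fun y z h1 h2 h3 h4 h5 h6 h7 => no_path σ hσ hg y z h1 h2 h3 h4 h5 h6 h7
  have htrs : Perm.sign (tr p) = 1 := tr_sign hp (by omega)
  have htr1 : tr p ≠ 1 := tr_ne_one
  have hreach := reach_conj hp4 hp9 σ
  obtain ⟨x, hx⟩ := hψr _ htrs
  have hx's : Perm.sign (σ * tr p * σ⁻¹) = 1 := by
    rw [Perm.sign_mul, Perm.sign_mul, htrs, mul_one, Perm.sign_inv]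
    exact Int.units_mul_self _
  have hx'1 : σ * tr p * σ⁻¹ ≠ 1 := by
    intro h
    apply htr1
    rwa [conj_eq_one_iff] at h
  obtain ⟨x', hx'⟩ := hψr _ hx's
  have hinsol : ¬ Group.IsSolvable (alternatingGroup (Fin p)) := by
    intro h
    have h1 : SolPair x x' := by
      unfold SolPair
      exact Group.isSolvable_of_isSolvable_injective (Subgroup.subtype_injective _)
    have h2 := solPair_map ψ h1
    rw [hx, hx'] at h2
    exact hno (tr p) (tr p) htr1 htr1 htrs htrs (solPair_self _) (solPair_self _) h2
  have hsimple : IsSimpleGroup (alternatingGroup (Fin p)) :=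
    alternatingGroup.isSimpleGroup (by rw [Nat.card_eq_fintype_card, Fintype.card_fin]; omega)
  have hrad : solubleRadical (alternatingGroup (Fin p)) = ⊥ := by
    rw [solubleRadical, sSup_eq_bot]
    rintro N ⟨hN1, hN2⟩
    rcases hsimple.eq_bot_or_eq_top_of_normal N hN1 with h | h
    · exact h
    · exfalso
      apply hinsol
      subst h
      exact Group.isSolvable_of_surjective
        (f := (Subgroup.topEquiv (G := alternatingGroup (Fin p))).toMonoidHom)
        (Subgroup.topEquiv (G := alternatingGroup (Fin p))).surjective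
  have hvert : ∀ g : alternatingGroup (Fin p), g ≠ 1 → g ∉ solubleRadical _ := by
    intro g hg1 h
    rw [hrad, Subgroup.mem_bot] at h
    exact hg1 h
  have hvert' : ∀ g : {g : alternatingGroup (Fin p) // g ∉ solubleRadical _}, g.1 ≠ 1 := by
    intro g h
    apply g.2
    rw [h]
    exact Subgroup.one_mem _
  have hx1 : x ≠ 1 := by
    intro h
    apply htr1
    rw [← hx, h, map_one]
  have hx'1' : x' ≠ 1 := by
    intro h
    apply hx'1
    rw [← hx', h, map_one]
  let u : {g : alternatingGroup (Fin p) // g ∉ solubleRadical _} := ⟨x, hvert x hx1⟩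
  let v : {g : alternatingGroup (Fin p) // g ∉ solubleRadical _} := ⟨x', hvert x' hx'1'⟩
  have hR : ∀ b : Perm (ZMod p), Relation.ReflTransGen Step (tr p) b →
      ∀ w : {g : alternatingGroup (Fin p) // g ∉ solubleRadical _}, ψ w.1 = b →
        (solubleGraph (alternatingGroup (Fin p))).Reachable u w := by
    intro b hb
    induction hb with
    | refl =>
      intro w hw
      have : w = u := Subtype.ext (hψ (hw.trans hx.symm))
      rw [this]
    | @tail a b _ hab ih =>
      intro w hw
      obtain ⟨g, hg⟩ := hψr a hab.1.2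
      have hg1 : g ≠ 1 := by
        intro h
        apply hab.1.1
        rw [← hg, h, map_one]
      have h1 := ih ⟨g, hvert g hg1⟩ hg
      by_cases hgw : (⟨g, hvert g hg1⟩ : {g : alternatingGroup (Fin p) //
          g ∉ solubleRadical _}) = w
      · rw [hgw] at h1
        exact h1
      · have h2 : SolPair g w.1 := by
          apply solPair_of_map ψ hψ
          rw [hg, hw]
          exact hab.2.2
        exact h1.trans (SimpleGraph.Adj.reachable ⟨hgw, h2⟩)
  have hRuv : (solubleGraph (alternatingGroup (Fin p))).Reachable u v := hR _ hreach v hx'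
  have hdist : 4 ≤ (solubleGraph (alternatingGroup (Fin p))).dist u v := by
    by_contra hlt
    obtain ⟨w, hw⟩ := hRuv.exists_walk_length_eq_dist
    obtain ⟨y, z, h1, h2, h3⟩ := walk_le_three w (by omega)
    have h1' := solPair_map ψ h1
    have h2' := solPair_map ψ h2
    have h3' := solPair_map ψ h3
    rw [show ψ u.1 = tr p from hx] at h1'
    rw [show ψ v.1 = σ * tr p * σ⁻¹ from hx'] at h3'
    exact hno (ψ y.1) (ψ z.1) (fun h => hvert' y ((hψ1 _).mp h))
      (fun h => hvert' z ((hψ1 _).mp h)) (hψs _) (hψs _) h1' h2' h3'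
  refine ⟨hinsol, hrad, ⟨u, v, hRuv, hdist⟩, ?_⟩
  refine le_trans ?_ (SimpleGraph.edist_le_ediam (u := u) (v := v))
  rw [← hRuv.coe_dist_eq_edist]
  exact_mod_cast hdist

/-- **Main result.**  For every prime `p ≡ 3 (mod 4)`, `p ≥ 2 ^ 100`, the alternating group `A_p`
is insoluble with trivial soluble radical, and its soluble graph has two vertices in the same
connected component at distance at least four; in particular there is an infinite family of
pairwise non-isomorphic finite groups with these properties. -/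
theorem result :
    (∀ p : ℕ, p.Prime → p % 4 = 3 → 2 ^ 100 ≤ p →
      ¬ Group.IsSolvable (alternatingGroup (Fin p)) ∧
      solubleRadical (alternatingGroup (Fin p)) = ⊥ ∧
      (∃ x y, (solubleGraph (alternatingGroup (Fin p))).Reachable x y ∧
        4 ≤ (solubleGraph (alternatingGroup (Fin p))).dist x y) ∧
      4 ≤ (solubleGraph (alternatingGroup (Fin p))).ediam) ∧
    ∃ (G : ℕ → Type) (_ : ∀ n, Group (G n)), (∀ n, Finite (G n)) ∧
      (∀ m n, m ≠ n → IsEmpty (G m ≃* G n)) ∧
      ∀ n, ¬ Group.IsSolvable (G n) ∧ solubleRadical (G n) = ⊥ ∧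
        (∃ x y, (solubleGraph (G n)).Reachable x y ∧ 4 ≤ (solubleGraph (G n)).dist x y) ∧
        4 ≤ (solubleGraph (G n)).ediam := by
  refine ⟨main, ?_⟩
  have hinf : {p : ℕ | p.Prime ∧ p % 4 = 3 ∧ 2 ^ 100 ≤ p}.Infinite := by
    rw [Set.infinite_iff_exists_gt]
    intro a
    obtain ⟨p, hp1, hp2, hp3⟩ := Nat.forall_exists_prime_gt_and_modEq (a + 2 ^ 100)
      (q := 4) (a := 3) (by norm_num) (by norm_num)
    refine ⟨p, ⟨hp2, ?_, by omega⟩, by omega⟩
    have := hp3
    unfold Nat.ModEq at this
    omega
  have h1 := hinf.natEmbedding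
  let P : ℕ → ℕ := fun n => (h1 n : ℕ)
  have hP : ∀ n, (P n).Prime ∧ P n % 4 = 3 ∧ 2 ^ 100 ≤ P n := fun n => (h1 n).2
  have hPinj : Function.Injective P := Subtype.val_injective.comp h1.injective
  refine ⟨fun n => alternatingGroup (Fin (P n)), fun n => inferInstance, fun n => inferInstance,
    ?_, fun n => main (P n) (hP n).1 (hP n).2.1 (hP n).2.2⟩
  intro m n hmn
  constructor
  intro f
  apply hmn
  apply hPinj
  have h2 : ∀ n, 2 ≤ P n := fun n => (hP n).1.two_le
  have h3 : Nontrivial (Fin (P m)) := Fin.nontrivial_iff_two_le.mpr (h2 m)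
  have h4 : Nontrivial (Fin (P n)) := Fin.nontrivial_iff_two_le.mpr (h2 n)
  have h5 : Nat.card (alternatingGroup (Fin (P m))) = Nat.card (alternatingGroup (Fin (P n))) :=
    Nat.card_congr f.toEquiv
  have h6 := two_mul_nat_card_alternatingGroup (α := Fin (P m))
  have h7 := two_mul_nat_card_alternatingGroup (α := Fin (P n))
  rw [h5, h7, Nat.card_perm, Nat.card_perm, Nat.card_eq_fintype_card, Nat.card_eq_fintype_card,
    Fintype.card_fin, Fintype.card_fin] at h6
  exact ((Nat.factorial_inj (by have := h2 n; omega)).mp h6).symm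

end Pool.Agent.Results.MP_7523db_al.SolubleDiameterFour
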